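import Mathlib

set_option autoImplicit false
open Filter Topology BoundedContinuousFunction

namespace Pool.Agent.H.MP_18d2fb_an

variable (𝕜 : Type) [RCLike 𝕜]

noncomputable def w : ℕ →ᵇ 𝕜 :=
  ofNormedAddCommGroupDiscrete (fun n => ((n + 1 : ℕ) : 𝕜)⁻¹) 1 (fun n => by
    rw [norm_inv, RCLike.norm_natCast]
    exact inv_le_one_of_one_le₀ (by simp))

noncomputable def V : (ℕ →ᵇ 𝕜) →L[𝕜] (ℕ →ᵇ 𝕜) :=
  (ContinuousLinearMap.mul 𝕜 (ℕ →ᵇ 𝕜) (w 𝕜)).comp
    (compContinuousCLM 𝕜 𝕜 ⟨Nat.succ, continuous_of_discreteTopology⟩)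

lemma V_apply (x : ℕ →ᵇ 𝕜) (n : ℕ) : V 𝕜 x n = ((n + 1 : ℕ) : 𝕜)⁻¹ * x (n + 1) := rfl

lemma V_pow (m : ℕ) (x : ℕ →ᵇ 𝕜) (n : ℕ) :
    (V 𝕜 ^ m) x n = (((n + 1).ascFactorial m : ℕ) : 𝕜)⁻¹ * x (n + m) := by
  induction m generalizing x with
  | zero => simp
  | succ m ih =>
    rw [pow_succ, mul_apply_eq_comp, ih, V_apply, Nat.ascFactorial_succ,
      Nat.cast_mul, mul_inv, show n + 1 + m = n + m + 1 by ring, add_assoc n m 1]
    ring

lemma V_norm (m : ℕ) : ‖V 𝕜 ^ m‖ ≤ (m.factorial : ℝ)⁻¹ := by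
  refine ContinuousLinearMap.opNorm_le_bound _ (by positivity) fun x => ?_
  refine (norm_le (by positivity)).2 fun n => ?_
  rw [V_pow, norm_mul, norm_inv, RCLike.norm_natCast]
  have h : m.factorial ≤ (n + 1).ascFactorial m := by
    rw [← Nat.one_ascFactorial]
    exact Nat.ascFactorial_le m (by omega)
  gcongr
  exact x.norm_coe_le_norm _

variable {𝕜}

lemma sp (c : 𝕜) (m : ℕ) : (c • V 𝕜) ^ m = c ^ m • V 𝕜 ^ m := by
  have : ∀ (X : Type) [NormedAddCommGroup X] [NormedSpace 𝕜 X] (T : X →L[𝕜] X),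
      (c • T) ^ m = c ^ m • T ^ m := fun X _ _ T => smul_pow c T m
  exact this _ _

lemma V_summable (c : 𝕜) : Summable fun m => (c • V 𝕜) ^ m := by
  refine Summable.of_norm_bounded (Real.summable_pow_div_factorial ‖c‖) fun m => ?_
  rw [sp, norm_smul, norm_pow, div_eq_mul_inv]
  gcongr
  exact V_norm 𝕜 m

variable (𝕜)

def E : Submodule 𝕜 (ℕ → (ℕ →ᵇ 𝕜)) where
  carrier := {y | ∀ k, V 𝕜 (y (k + 1)) = y k}
  add_mem' := fun {a b} ha hb k => by simp [ha k, hb k]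
  zero_mem' := fun k => by simp
  smul_mem' := fun c a ha k => by simp [ha k]

instance : CompleteSpace (E 𝕜) := by
  refine @IsClosed.completeSpace_coe _ _ _ (E 𝕜 : Set (ℕ → (ℕ →ᵇ 𝕜))) ?_
  change IsClosed {y : ℕ → (ℕ →ᵇ 𝕜) | ∀ k, V 𝕜 (y (k + 1)) = y k}
  rw [Set.ofPred_forall]
  exact isClosed_iInter fun k => isClosed_eq (by fun_prop) (by fun_prop)

lemma seminorms : ∃ p : ℕ → Seminorm 𝕜 (E 𝕜), Monotone p ∧ WithSeminorms p := by
  have h1 := withSeminorms_pi (E := fun _ : ℕ => ℕ →ᵇ 𝕜)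
    (fun _ => norm_withSeminorms 𝕜 (ℕ →ᵇ 𝕜))
  have h2 := (IsInducing.withSeminorms h1 (f := (E 𝕜).subtype) IsInducing.subtypeVal).congr_equiv
    (Equiv.sigmaUnique ℕ (fun _ => Fin 1)).symm
  exact ⟨_, fun i j h => Finset.sup_mono (Finset.Iic_subset_Iic.2 h), h2.partial_sups⟩

noncomputable def U : E 𝕜 →L[𝕜] E 𝕜 where
  toFun y := ⟨fun k => y.1 (k + 1), fun k => y.2 (k + 1)⟩
  map_add' _ _ := rfl
  map_smul' _ _ := rfl
  cont := by
    refine Continuous.subtype_mk (continuous_pi fun k => ?_) _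
    exact (continuous_apply (k + 1)).comp continuous_subtype_val

variable {𝕜}

lemma U_iter (m : ℕ) (y : E 𝕜) (k : ℕ) : ((U 𝕜)^[m] y).1 k = y.1 (k + m) := by
  induction m generalizing k with
  | zero => rfl
  | succ m ih =>
    rw [Function.iterate_succ_apply']
    exact (ih (k + 1)).trans (by rw [add_assoc, add_comm 1 m])

lemma back (y : E 𝕜) (k m : ℕ) : (V 𝕜 ^ m) (y.1 (k + m)) = y.1 k := by
  induction m with
  | zero => rfl
  | succ m ih => rw [pow_succ, mul_apply_eq_comp, ← add_assoc, y.2, ih]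

lemma bij (c : 𝕜) : Function.Bijective fun x : E 𝕜 => x - c • U 𝕜 x := by
  by_cases hc : c = 0
  · simp only [hc, zero_smul, sub_zero]; exact Function.bijective_id
  have hs := V_summable c⁻¹
  set R := ∑' m, (c⁻¹ • V 𝕜) ^ m with hR
  have h1 : R * (1 - c⁻¹ • V 𝕜) = 1 := hs.tsum_pow_mul_one_sub
  have h2 : (1 - c⁻¹ • V 𝕜) * R = 1 := hs.one_sub_mul_tsum_pow
  have h3 : V 𝕜 * R = R * V 𝕜 := by
    have e : c⁻¹ • (V 𝕜 * R) = c⁻¹ • (R * V 𝕜) := by
      rw [mul_sub, mul_one] at h1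
      rw [sub_mul, one_mul] at h2
      have h4 := sub_right_injective (h2.trans h1.symm)
      ext1 z
      have h5 := congrArg (fun T : (ℕ →ᵇ 𝕜) →L[𝕜] (ℕ →ᵇ 𝕜) => T z) h4
      simpa only [mul_apply_eq_comp, _root_.smul_apply, map_smul] using h5
    exact smul_right_injective _ (inv_ne_zero hc) e
  have key : ∀ x : E 𝕜, ∀ k, (x - c • U 𝕜 x).1 k = -c • (1 - c⁻¹ • V 𝕜) (x.1 (k + 1)) := by
    intro x k
    change x.1 k - c • x.1 (k + 1) = _
    simp only [_root_.sub_apply, one_apply_eq_self,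
      _root_.smul_apply, x.2 k, smul_sub, smul_smul, neg_mul, mul_inv_cancel₀ hc]
    simp only [neg_smul, one_smul]
    abel
  constructor
  · intro x y h
    have h4 : ∀ k, x.1 (k + 1) = y.1 (k + 1) := by
      intro k
      have h5 : (x - c • U 𝕜 x).1 k = (y - c • U 𝕜 y).1 k := congrArg (fun z : E 𝕜 => z.1 k) h
      rw [key, key] at h5
      have h6 := congrArg R (smul_right_injective _ (neg_ne_zero.2 hc) h5)
      simpa only [← mul_apply_eq_comp, h1, one_apply_eq_self] using h6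
    ext1
    funext k
    rw [← x.2 k, ← y.2 k, h4]
  · intro g
    refine ⟨⟨fun k => -c⁻¹ • R (V 𝕜 (g.1 k)), fun k => ?_⟩, ?_⟩
    · rw [map_smul, ← mul_apply_eq_comp, h3, mul_apply_eq_comp, g.2 k]
    · ext1
      funext k
      rw [key]
      simp only [map_smul, smul_smul, neg_mul_neg, mul_inv_cancel₀ hc, one_smul]
      rw [← mul_apply_eq_comp, h2, g.2 k]
      rfl

lemma diverge (x : E 𝕜) (hx : x ≠ 0) (c : 𝕜) (hc : c ≠ 0) (s : E 𝕜) :
    ¬ Tendsto (fun n => ∑ k ∈ Finset.range n, c ^ k • (U 𝕜)^[k] x) atTop (𝓝 s) := by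
  intro h
  have h1 := (h.comp (tendsto_add_atTop_nat 1)).sub h
  simp only [Function.comp, Finset.sum_range_succ, add_sub_cancel_left, sub_self] at h1
  apply hx
  ext1
  funext j
  have h2 : Tendsto (fun m => c ^ m • x.1 (j + m)) atTop (𝓝 0) := by
    have hc' : Continuous fun z : E 𝕜 => z.1 j := (continuous_apply j).comp continuous_subtype_val
    refine ((hc'.tendsto 0).comp h1).congr fun m => ?_
    change c ^ m • ((U 𝕜)^[m] x).1 j = _
    rw [U_iter]
  have h3 := ((V_summable c⁻¹).tendsto_atTop_zero.norm).mul h2.norm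
  simp only [norm_zero, mul_zero] at h3
  have h4 : ‖x.1 j‖ ≤ 0 := by
    refine ge_of_tendsto' h3 fun m => le_trans (le_of_eq ?_) (ContinuousLinearMap.le_opNorm _ _)
    rw [sp, _root_.smul_apply, map_smul, back, smul_smul, ← mul_pow,
      inv_mul_cancel₀ hc, one_pow, one_smul]
  exact norm_le_zero_iff.1 h4

variable (𝕜)

lemma nontriv : ∃ x : E 𝕜, x ≠ 0 := by
  refine ⟨⟨fun k => ofNormedAddCommGroupDiscrete
    (fun n => if n = k then (k.factorial : 𝕜) else 0) k.factorial (fun n => by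
      split_ifs <;> simp), fun k => ?_⟩, fun h => ?_⟩
  · ext n
    rw [V_apply]
    simp only [coe_ofNormedAddCommGroupDiscrete, Nat.add_right_cancel_iff]
    split_ifs with h
    · rw [h, Nat.factorial_succ, Nat.cast_mul, inv_mul_cancel_left₀]
      exact Nat.cast_ne_zero.2 (Nat.succ_ne_zero k)
    · simp
  · have := congrArg (fun z : E 𝕜 => z.1 0 0) h
    simp at this

end Pool.Agent.H.MP_18d2fb_an
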